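import Mathlib

namespace Pool.Agent.R150.TT

open Finset

variable {n : ℕ}

structure TreeLike (𝒞 : Set (Finset (Fin n))) (r : ℕ) : Prop where
  compl : ∀ C ∈ 𝒞, Cᶜ ∈ 𝒞
  sink : ∀ P : Finset (Fin n) → Prop, (∀ C ∈ 𝒞, P C ∨ P Cᶜ) →
    ∃ D : Fin r → Finset (Fin n), (∀ j, D j = ∅ ∨ (D j ∈ 𝒞 ∧ P (D j))) ∧
      (∀ i j, i ≠ j → Disjoint (D i) (D j)) ∧
      (∀ X : Finset (Fin n), X.card ≤ ∑ j, (X ∩ D j).card + 1)

def K3 (A B C : Set (Finset (Fin n))) (v : ℕ) : Prop :=
  ∀ a ∈ A, ∀ b ∈ B, ∀ c ∈ C, (a ∩ b ∩ c).card ≤ v ∨ (aᶜ ∩ bᶜ ∩ cᶜ).card ≤ v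

theorem K3.swap12 {A B C : Set (Finset (Fin n))} {v : ℕ} (h : K3 A B C v) : K3 B A C v := by
  intro b hb a ha c hc
  have := h a ha b hb c hc
  rwa [inter_comm a b, inter_comm aᶜ bᶜ] at this

theorem K3.swap23 {A B C : Set (Finset (Fin n))} {v : ℕ} (h : K3 A B C v) : K3 A C B v := by
  intro a ha c hc b hb
  have := h a ha b hb c hc
  rwa [inter_right_comm a b, inter_right_comm aᶜ bᶜ] at this

theorem pair {A B C : Set (Finset (Fin n))} {r v : ℕ} (hB : TreeLike B r) (hC : TreeLike C r)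
    (hK : K3 A B C v) {a b : Finset (Fin n)} (ha : a ∈ A) (hb : b ∈ B)
    (h1 : 2 * v < (a ∩ bᶜ).card) (h2 : 2 * v < (aᶜ ∩ b).card) :
    (a ∩ bᶜ).card ≤ r * v + 1 ∧ (aᶜ ∩ b).card ≤ r * v + 1 := by
  have split : ∀ X C : Finset (Fin n), (X ∩ C).card + (X ∩ Cᶜ).card = X.card := by
    intro X C
    rw [← card_union_of_disjoint, ← inter_union_distrib_left, union_compl, inter_univ]
    rw [disjoint_iff_inter_eq_empty]
    ext x; simp; tauto
  have key : ∀ c ∈ C, ((a ∩ bᶜ ∩ c).card ≤ v ∧ (aᶜ ∩ b ∩ c).card ≤ v) ∨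
      ((a ∩ bᶜ ∩ cᶜ).card ≤ v ∧ (aᶜ ∩ b ∩ cᶜ).card ≤ v) := by
    intro c hc
    have k1 := hK a ha bᶜ (hB.compl b hb) c hc
    have k2 := hK a ha bᶜ (hB.compl b hb) cᶜ (hC.compl c hc)
    rw [compl_compl] at k1
    rw [compl_compl, compl_compl] at k2
    have s1 := split (a ∩ bᶜ) c
    have s2 := split (aᶜ ∩ b) c
    omega
  obtain ⟨D, hD1, -, hD2⟩ := hC.sink (fun C => (a ∩ bᶜ ∩ C).card ≤ v ∧ (aᶜ ∩ b ∩ C).card ≤ v) key
  have hb : ∀ j, (a ∩ bᶜ ∩ D j).card ≤ v ∧ (aᶜ ∩ b ∩ D j).card ≤ v := by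
    intro j
    rcases hD1 j with h | h
    · rw [h]; simp
    · exact h.2
  constructor
  · refine (hD2 _).trans ?_
    have : ∑ j, (a ∩ bᶜ ∩ D j).card ≤ ∑ _j : Fin r, v := sum_le_sum fun j _ => (hb j).1
    simp only [sum_const, card_univ, Fintype.card_fin, smul_eq_mul] at this
    omega
  · refine (hD2 _).trans ?_
    have : ∑ j, (aᶜ ∩ b ∩ D j).card ≤ ∑ _j : Fin r, v := sum_le_sum fun j _ => (hb j).2
    simp only [sum_const, card_univ, Fintype.card_fin, smul_eq_mul] at this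
    omega

theorem cardsplit (X C : Finset (Fin n)) : (X ∩ C).card + (X ∩ Cᶜ).card = X.card := by
  rw [← card_union_of_disjoint, ← inter_union_distrib_left, union_compl, inter_univ]
  rw [disjoint_iff_inter_eq_empty]
  ext x; simp; tauto

theorem cardsplit' (X C : Finset (Fin n)) : (C ∩ X).card + (Cᶜ ∩ X).card = X.card := by
  rw [inter_comm C X, inter_comm Cᶜ X]; exact cardsplit X C

/-- Small sides of two different trees meet in at most `2v` labels. -/
theorem L2 {A B C : Set (Finset (Fin n))} {r v : ℕ} (hr : 2 ≤ r) (hA : TreeLike A r)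
    (hB : TreeLike B r) (hC : TreeLike C r) (hK : K3 A B C v) (H : 4 * (r * v) + 4 < n)
    {a b : Finset (Fin n)} (ha : a ∈ A) (hb : b ∈ B) (ha2 : 2 * a.card ≤ n)
    (hb2 : 2 * b.card ≤ n) : (a ∩ b).card ≤ 2 * v := by
  by_contra hcon
  push Not at hcon
  have s1 := cardsplit a b
  have s2 := cardsplit' b a
  have s3 := cardsplit aᶜ b
  have s4 : a.card + aᶜ.card = n := by rw [card_add_card_compl]; simp
  have hrv : 2 * v ≤ r * v := Nat.mul_le_mul_right v hr
  have h5 : 2 * v < (aᶜ ∩ bᶜ).card := by omega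
  have h6 := pair hB hC hK (hA.compl a ha) hb h5 (by rw [compl_compl]; exact hcon)
  rw [compl_compl] at h6
  by_cases hq : 2 * v < (a ∩ bᶜ).card
  · by_cases hs : 2 * v < (aᶜ ∩ b).card
    · have h7 := pair hB hC hK ha hb hq hs
      omega
    · omega
  · omega

theorem L3 {A B C : Set (Finset (Fin n))} {r v : ℕ} (hr : 2 ≤ r) (hA : TreeLike A r)
    (hB : TreeLike B r) (hC : TreeLike C r) (hK : K3 A B C v) (H : 4 * (r * v) + 4 < n)
    {a b : Finset (Fin n)} (ha : a ∈ A) (hb : b ∈ B) (ha2 : 2 * a.card ≤ n)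
    (hb2 : 2 * b.card ≤ n) (ha4 : 4 * v < a.card) (hb4 : 4 * v < b.card) :
    (a ∩ bᶜ).card ≤ r * v + 1 := by
  have h2 := L2 hr hA hB hC hK H ha hb ha2 hb2
  have s1 := cardsplit a b
  have s2 := cardsplit' b a
  exact (pair hB hC hK ha hb (by omega) (by omega)).1

/-- centroid family -/
def Cent (𝒞 : Set (Finset (Fin n))) (r : ℕ) (D : Fin r → Finset (Fin n)) : Prop :=
  (∀ j, D j = ∅ ∨ (D j ∈ 𝒞 ∧ 2 * (D j).card ≤ n)) ∧
      (∀ i j, i ≠ j → Disjoint (D i) (D j)) ∧ n ≤ ∑ j, (D j).card + 1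

theorem exists_cent {𝒞 : Set (Finset (Fin n))} {r : ℕ} (h : TreeLike 𝒞 r) :
    ∃ D, Cent 𝒞 r D := by
  obtain ⟨D, h1, h2, h3⟩ := h.sink (fun C => 2 * C.card ≤ n) (by
    intro C _
    have : C.card + Cᶜ.card = n := by rw [card_add_card_compl]; simp
    omega)
  refine ⟨D, h1, h2, ?_⟩
  have := h3 univ
  simpa using this

theorem exists_big {𝒞 : Set (Finset (Fin n))} {r v : ℕ} (h : TreeLike 𝒞 r)
    (H : 4 * (r * v) + 4 < n) : ∃ b ∈ 𝒞, 2 * b.card ≤ n ∧ 4 * v < b.card := by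
  obtain ⟨D, h1, -, h3⟩ := exists_cent h
  by_contra hcon
  push Not at hcon
  have : ∀ j, (D j).card ≤ 4 * v := by
    intro j
    rcases h1 j with h | h
    · rw [h]; simp
    · exact hcon _ h.1 h.2
  have h4 : ∑ j, (D j).card ≤ ∑ _j : Fin r, 4 * v := sum_le_sum fun j _ => this j
  simp at h4
  have : r * (4 * v) = 4 * (r * v) := by ring
  omega

theorem F1 {A B C : Set (Finset (Fin n))} {r v : ℕ} (hr : 2 ≤ r) (hA : TreeLike A r)
    (hB : TreeLike B r) (hC : TreeLike C r) (hK : K3 A B C v) (H : 4 * (r * v) + 4 < n)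
    {a : Finset (Fin n)} (ha : a ∈ A) (ha2 : 2 * a.card ≤ n) : a.card ≤ r * v + 2 * v + 1 := by
  by_cases h4 : 4 * v < a.card
  · obtain ⟨b, hb, hb2, hb4⟩ := exists_big hB H
    have h2 := L2 hr hA hB hC hK H ha hb ha2 hb2
    have h3 := L3 hr hA hB hC hK H ha hb ha2 hb2 h4 hb4
    have s1 := cardsplit a b
    omega
  · have hrv : 2 * v ≤ r * v := Nat.mul_le_mul_right v hr
    omega

theorem L4 {A B C : Set (Finset (Fin n))} {r v : ℕ} (hr : 2 ≤ r) (hA : TreeLike A r)
    (hB : TreeLike B r) (hC : TreeLike C r) (hK : K3 A B C v) (H : 4 * (r * v) + 4 < n)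
    {a : Finset (Fin n)} (ha : a ∈ A) (ha2 : 2 * a.card ≤ n) (ha4 : 4 * v < a.card)
    {D : Fin r → Finset (Fin n)} (hD : Cent B r D) (J : Finset (Fin r))
    (hJ : ∀ j ∈ J, 4 * v < (D j).card) :
    J.card * a.card ≤ a.card + J.card * (r * v + 1) := by
  have h1 : ∀ j ∈ J, a.card ≤ (a ∩ D j).card + (r * v + 1) := by
    intro j hj
    have h := hD.1 j
    have hj4 := hJ j hj
    rcases h with h | h
    · rw [h] at hj4; simp at hj4
    · have h3 := L3 hr hA hB hC hK H ha h.1 ha2 h.2 ha4 hj4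
      have s1 := cardsplit a (D j)
      omega
  have h2 : ∑ j ∈ J, (a ∩ D j).card ≤ a.card := by
    rw [← card_biUnion]
    · apply card_le_card
      intro x hx
      simp only [mem_biUnion, mem_inter] at hx
      obtain ⟨_, _, h, _⟩ := hx
      exact h
    · intro i _ j _ hij
      exact (hD.2.1 i j hij).mono inter_subset_right inter_subset_right
  calc J.card * a.card = ∑ _j ∈ J, a.card := by simp
    _ ≤ ∑ j ∈ J, ((a ∩ D j).card + (r * v + 1)) := sum_le_sum h1
    _ = ∑ j ∈ J, (a ∩ D j).card + J.card * (r * v + 1) := by rw [sum_add_distrib]; simp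
    _ ≤ _ := by omega


/-- at most one small branch -/
theorem amos {r v : ℕ} (hr : 4 ≤ r) (H : r ^ 3 * (v + 1) < (r - 1) * n)
    {D : Fin r → Finset (Fin n)} (hsum : n ≤ ∑ j, (D j).card + 1)
    (hF : ∀ j, (D j).card ≤ r * v + 2 * v + 1) (i i' : Fin r) (hne : i ≠ i')
    (h1 : (D i).card ≤ 4 * v) (h2 : (D i').card ≤ 4 * v) : False := by
  obtain ⟨s, rfl⟩ : ∃ s, r = s + 4 := ⟨r - 4, by omega⟩
  have e1 : ∑ j, (D j).card = ∑ j ∈ (univ.erase i).erase i', (D j).card + (D i').card +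
      (D i).card := by
    rw [sum_erase_add _ _ (by simp [hne.symm]), sum_erase_add _ _ (by simp)]
  have e2 : ∑ j ∈ (univ.erase i).erase i', (D j).card ≤ (s + 2) * ((s + 4) * v + 2 * v + 1) := by
    calc _ ≤ ∑ j ∈ (univ.erase i).erase i', ((s + 4) * v + 2 * v + 1) :=
          sum_le_sum fun j _ => hF j
      _ = _ := by
        rw [sum_const, card_erase_of_mem (by simp [hne.symm]), card_erase_of_mem (by simp)]
        simp
  have e3 : n ≤ (s + 2) * ((s + 4) * v + 2 * v + 1) + 8 * v + 1 := by omega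
  have e4 : (s + 4 - 1) * n ≤ (s + 3) * ((s + 2) * ((s + 4) * v + 2 * v + 1) + 8 * v + 1) := by
    have : s + 4 - 1 = s + 3 := by omega
    rw [this]
    exact Nat.mul_le_mul_left _ e3
  nlinarith [Nat.zero_le (s * v), Nat.zero_le (s ^ 2 * v), Nat.zero_le (s ^ 3 * v),
    Nat.zero_le (s ^ 2), Nat.zero_le (s ^ 3), Nat.zero_le s, Nat.zero_le v]

/-- a system all of whose branches are large gives the bound -/
theorem allbig {A B C : Set (Finset (Fin n))} {r v : ℕ} (hr : 4 ≤ r) (hA : TreeLike A r)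
    (hB : TreeLike B r) (hC : TreeLike C r) (hK : K3 A B C v)
    (H0 : 4 * (r * v) + 4 < n) (H : r ^ 3 * (v + 1) < (r - 1) * n)
    {D : Fin r → Finset (Fin n)} (hD : Cent B r D) (hbig : ∀ j, 4 * v < (D j).card) : False := by
  obtain ⟨E, hE⟩ := exists_cent hA
  have h1 : ∀ i, (r - 1) * (E i).card ≤ r * (r * v + 1) := by
    intro i
    by_cases hi : 4 * v < (E i).card
    · rcases hE.1 i with h | h
      · rw [h] at hi; simp at hi
      · have := L4 (by omega) hA hB hC hK H0 h.1 h.2 hi hD univ (fun j _ => hbig j)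
        simp only [card_univ, Fintype.card_fin] at this
        obtain ⟨s, rfl⟩ : ∃ s, r = s + 4 := ⟨r - 4, by omega⟩
        have e : s + 4 - 1 = s + 3 := by omega
        rw [e]
        nlinarith
    · push Not at hi
      obtain ⟨s, rfl⟩ : ∃ s, r = s + 4 := ⟨r - 4, by omega⟩
      have e : s + 4 - 1 = s + 3 := by omega
      rw [e]
      have := Nat.mul_le_mul_left (s + 3) hi
      nlinarith [Nat.zero_le (s * v), Nat.zero_le (s ^ 2 * v)]
  have h2 : (r - 1) * ∑ i, (E i).card ≤ r * (r * (r * v + 1)) := by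
    rw [mul_sum]
    calc _ ≤ ∑ _i : Fin r, r * (r * v + 1) := sum_le_sum fun i _ => h1 i
      _ = _ := by simp
  have h3 := hE.2.2
  obtain ⟨s, rfl⟩ : ∃ s, r = s + 4 := ⟨r - 4, by omega⟩
  have e : s + 4 - 1 = s + 3 := by omega
  rw [e] at h2 H
  have h4 : (s + 3) * n ≤ (s + 3) * (∑ i, (E i).card + 1) := Nat.mul_le_mul_left _ h3
  nlinarith [Nat.zero_le (s * v), Nat.zero_le (s ^ 2 * v), Nat.zero_le (s ^ 3 * v),
    Nat.zero_le (s ^ 2), Nat.zero_le (s ^ 3), Nat.zero_le s, Nat.zero_le v]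

/-- the sum over all but one index -/
theorem sum_erase_bound {r : ℕ} {D : Fin r → Finset (Fin n)} (i : Fin r) {M t : ℕ}
    (h : ∀ j, j ≠ i → (D j).card ≤ M) (hi : (D i).card ≤ t) :
    ∑ j, (D j).card ≤ (r - 1) * M + t := by
  have e1 : ∑ j, (D j).card = ∑ j ∈ univ.erase i, (D j).card + (D i).card := by
    rw [sum_erase_add _ _ (by simp)]
  have e2 : ∑ j ∈ univ.erase i, (D j).card ≤ (r - 1) * M := by
    calc _ ≤ ∑ j ∈ univ.erase i, M := sum_le_sum fun j hj => h j (by simpa using hj)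
      _ = _ := by
        rw [sum_const, card_erase_of_mem (by simp)]
        simp
  omega

/-- `r ≥ 5`, one small branch in each of two systems -/
theorem five {A B C : Set (Finset (Fin n))} {r v : ℕ} (hr : 5 ≤ r) (hA : TreeLike A r)
    (hB : TreeLike B r) (hC : TreeLike C r) (hK : K3 A B C v)
    (H0 : 4 * (r * v) + 4 < n) (H : r ^ 3 * (v + 1) < (r - 1) * n)
    {E : Fin r → Finset (Fin n)} (hE : Cent A r E) (i0 : Fin r) (hi0 : (E i0).card ≤ 4 * v)
    {D : Fin r → Finset (Fin n)} (hD : Cent B r D) (j0 : Fin r)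
    (hbig : ∀ j, j ≠ j0 → 4 * v < (D j).card) : False := by
  have h1 : ∀ i, i ≠ i0 → (r - 2) * (E i).card ≤ (r - 1) * (r * v + 1) := by
    intro i hii
    by_cases hi : 4 * v < (E i).card
    · rcases hE.1 i with h | h
      · rw [h] at hi; simp at hi
      · have := L4 (by omega) hA hB hC hK H0 h.1 h.2 hi hD (univ.erase j0)
          (fun j hj => hbig j (by simpa using hj))
        rw [card_erase_of_mem (by simp)] at this
        simp only [card_univ, Fintype.card_fin] at this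
        obtain ⟨s, rfl⟩ : ∃ s, r = s + 5 := ⟨r - 5, by omega⟩
        have e : s + 5 - 1 = s + 4 := by omega
        have e' : s + 5 - 2 = s + 3 := by omega
        rw [e] at this ⊢
        rw [e']
        nlinarith
    · push Not at hi
      obtain ⟨s, rfl⟩ : ∃ s, r = s + 5 := ⟨r - 5, by omega⟩
      have e : s + 5 - 1 = s + 4 := by omega
      have e' : s + 5 - 2 = s + 3 := by omega
      rw [e, e']
      have := Nat.mul_le_mul_left (s + 3) hi
      nlinarith [Nat.zero_le (s * v), Nat.zero_le (s ^ 2 * v)]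
  have e1 : ∑ j, (E j).card = ∑ j ∈ univ.erase i0, (E j).card + (E i0).card := by
    rw [sum_erase_add _ _ (by simp)]
  have h2 : (r - 2) * ∑ i ∈ univ.erase i0, (E i).card ≤ (r - 1) * ((r - 1) * (r * v + 1)) := by
    rw [mul_sum]
    calc _ ≤ ∑ _i ∈ univ.erase i0, (r - 1) * (r * v + 1) :=
          sum_le_sum fun i hi => h1 i (by simpa using hi)
      _ = _ := by
        rw [sum_const, card_erase_of_mem (by simp)]
        simp
  have h3 := hE.2.2
  obtain ⟨s, rfl⟩ : ∃ s, r = s + 5 := ⟨r - 5, by omega⟩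
  have e : s + 5 - 1 = s + 4 := by omega
  have e' : s + 5 - 2 = s + 3 := by omega
  rw [e, e'] at h2
  rw [e] at H
  set S := ∑ i ∈ univ.erase i0, (E i).card with hS
  have h5 : n ≤ S + 4 * v + 1 := by omega
  have h6 : (s + 3) * n ≤ (s + 4) * ((s + 4) * ((s + 5) * v + 1)) + (s + 3) * (4 * v + 1) := by
    calc (s + 3) * n ≤ (s + 3) * (S + 4 * v + 1) := Nat.mul_le_mul_left _ h5
      _ = (s + 3) * S + (s + 3) * (4 * v + 1) := by ring
      _ ≤ _ := by omega
  have h7 : (s + 4) * ((s + 3) * n) ≤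
      (s + 4) * ((s + 4) * ((s + 4) * ((s + 5) * v + 1)) + (s + 3) * (4 * v + 1)) :=
    Nat.mul_le_mul_left _ h6
  have h8 : (s + 3) * ((s + 5) ^ 3 * (v + 1)) < (s + 3) * ((s + 4) * n) :=
    Nat.mul_lt_mul_of_pos_left H (by omega)
  nlinarith [Nat.zero_le (s * v), Nat.zero_le (s ^ 2 * v), Nat.zero_le (s ^ 3 * v),
    Nat.zero_le (s ^ 4 * v), Nat.zero_le (s ^ 4),
    Nat.zero_le (s ^ 2), Nat.zero_le (s ^ 3), Nat.zero_le s, Nat.zero_le v]


theorem size4 {v : ℕ} {E : Fin 4 → Finset (Fin n)} (hsum : n ≤ ∑ j, (E j).card + 1)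
    (hF : ∀ j, (E j).card ≤ 4 * v + 2 * v + 1) (i0 : Fin 4) (hi0 : (E i0).card ≤ 4 * v)
    (i : Fin 4) (hi : i ≠ i0) : n ≤ (E i).card + 16 * v + 3 := by
  have e1 : ∑ j, (E j).card = ∑ j ∈ (univ.erase i0).erase i, (E j).card + (E i).card +
      (E i0).card := by
    rw [sum_erase_add _ _ (by simp [hi]), sum_erase_add _ _ (by simp)]
  have e2 : ∑ j ∈ (univ.erase i0).erase i, (E j).card ≤ 2 * (4 * v + 2 * v + 1) := by
    calc _ ≤ ∑ j ∈ (univ.erase i0).erase i, (4 * v + 2 * v + 1) :=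
          sum_le_sum fun j _ => hF j
      _ = _ := by
        rw [sum_const, card_erase_of_mem (by simp [hi]), card_erase_of_mem (by simp)]
        simp
  omega

theorem four {A B C : Set (Finset (Fin n))} {v : ℕ} (hA : TreeLike A 4)
    (hB : TreeLike B 4) (hC : TreeLike C 4) (hK : K3 A B C v)
    (H0 : 4 * (4 * v) + 4 < n) (H : 4 ^ 3 * (v + 1) < (4 - 1) * n)
    {E D F : Fin 4 → Finset (Fin n)} (hE : Cent A 4 E) (i0 : Fin 4) (hi0 : (E i0).card ≤ 4 * v)
    (hEb : ∀ i, i ≠ i0 → 4 * v < (E i).card)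
    (_hEF : ∀ j, (E j).card ≤ 4 * v + 2 * v + 1)
    (hD : Cent B 4 D) (j0 : Fin 4) (hDb : ∀ i, i ≠ j0 → 4 * v < (D i).card)
    (hF : Cent C 4 F) (k0 : Fin 4) (hk0 : (F k0).card ≤ 4 * v)
    (hFb : ∀ i, i ≠ k0 → 4 * v < (F i).card)
    (hFF : ∀ j, (F j).card ≤ 4 * v + 2 * v + 1) : False := by
  obtain ⟨j, hj⟩ : ∃ j : Fin 4, j ≠ j0 := exists_ne j0
  have memD : D j ∈ B ∧ 2 * (D j).card ≤ n := by
    rcases hD.1 j with h | h
    · have := hDb j hj
      rw [h] at this; simp at this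
    · exact h
  have main : ∀ i, i ≠ i0 → 2 * (E i).card ≤ 11 * v + 2 := by
    intro i hi
    have memE : E i ∈ A ∧ 2 * (E i).card ≤ n := by
      rcases hE.1 i with h | h
      · have := hEb i hi
        rw [h] at this; simp at this
      · exact h
    have h3 := L3 (by norm_num) hA hB hC hK H0 memE.1 memD.1 memE.2 memD.2 (hEb i hi) (hDb j hj)
    have h4 : ∀ k, k ≠ k0 → (E i ∩ D j).card ≤ (E i ∩ D j ∩ F k).card + v := by
      intro k hk
      have memF : F k ∈ C ∧ 2 * (F k).card ≤ n := by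
        rcases hF.1 k with h | h
        · have := hFb k hk
          rw [h] at this; simp at this
        · exact h
      have s1 := size4 hF.2.2 hFF k0 hk0 k hk
      have l1 := L2 (by norm_num) hA hC hB hK.swap23 H0 memE.1 memF.1 memE.2 memF.2
      have l2 := L2 (by norm_num) hB hC hA hK.swap12.swap23 H0 memD.1 memF.1 memD.2 memF.2
      have l3 : (F k).card ≤ (E i ∩ F k).card + (D j ∩ F k).card +
          ((E i)ᶜ ∩ (D j)ᶜ ∩ F k).card := by
        have : F k ⊆ (E i ∩ F k) ∪ (D j ∩ F k) ∪ ((E i)ᶜ ∩ (D j)ᶜ ∩ F k) := by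
          intro x hx
          simp only [mem_union, mem_inter, mem_compl]
          tauto
        calc (F k).card ≤ _ := card_le_card this
          _ ≤ _ := (card_union_le _ _).trans (by
            have := card_union_le (E i ∩ F k) (D j ∩ F k)
            omega)
      have l4 := hK _ memE.1 _ memD.1 _ (hC.compl _ memF.1)
      rw [compl_compl] at l4
      have l5 := cardsplit (E i ∩ D j) (F k)
      omega
    have h5 : ∑ k ∈ univ.erase k0, (E i ∩ D j ∩ F k).card ≤ (E i ∩ D j).card := by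
      rw [← card_biUnion]
      · apply card_le_card
        intro x hx
        simp only [mem_biUnion, mem_inter] at hx
        obtain ⟨_, _, h, _⟩ := hx
        simpa using h
      · intro a _ b _ hab
        exact (hF.2.1 a b hab).mono inter_subset_right inter_subset_right
    have h6 : ∑ _k ∈ univ.erase k0, (E i ∩ D j).card ≤
        ∑ k ∈ univ.erase k0, ((E i ∩ D j ∩ F k).card + v) :=
      sum_le_sum fun k hk => h4 k (by simpa using hk)
    rw [sum_add_distrib, sum_const, sum_const, card_erase_of_mem (by simp)] at h6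
    simp only [card_univ, Fintype.card_fin, smul_eq_mul] at h6
    have h7 := cardsplit (E i) (D j)
    omega
  have e1 : ∑ j, (E j).card = ∑ j ∈ univ.erase i0, (E j).card + (E i0).card := by
    rw [sum_erase_add _ _ (by simp)]
  have e2 : 2 * ∑ j ∈ univ.erase i0, (E j).card ≤ 3 * (11 * v + 2) := by
    rw [mul_sum]
    calc _ ≤ ∑ _i ∈ univ.erase i0, (11 * v + 2) :=
          sum_le_sum fun i hi => main i (by simpa using hi)
      _ = _ := by
        rw [sum_const, card_erase_of_mem (by simp)]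
        simp
  have e3 := hE.2.2
  omega

theorem main_abs {A B C : Set (Finset (Fin n))} {r v : ℕ} (hr : 4 ≤ r) (hA : TreeLike A r)
    (hB : TreeLike B r) (hC : TreeLike C r) (hK : K3 A B C v) :
    (r - 1) * n ≤ r ^ 3 * (v + 1) := by
  by_contra H
  push Not at H
  have H0 : 4 * (r * v) + 4 < n := by
    by_contra hcon
    push Not at hcon
    have : (r - 1) * n ≤ (r - 1) * (4 * (r * v) + 4) := Nat.mul_le_mul_left _ hcon
    obtain ⟨s, rfl⟩ : ∃ s, r = s + 4 := ⟨r - 4, by omega⟩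
    have e : s + 4 - 1 = s + 3 := by omega
    rw [e] at this H
    nlinarith [Nat.zero_le (s * v), Nat.zero_le (s ^ 2 * v), Nat.zero_le (s ^ 3 * v),
      Nat.zero_le (s ^ 2), Nat.zero_le (s ^ 3), Nat.zero_le s, Nat.zero_le v]
  obtain ⟨E, hE⟩ := exists_cent hA
  obtain ⟨D, hD⟩ := exists_cent hB
  obtain ⟨F, hF⟩ := exists_cent hC
  have hEF : ∀ j, (E j).card ≤ r * v + 2 * v + 1 := by
    intro j
    rcases hE.1 j with h | h
    · rw [h]; simp
    · exact F1 (by omega) hA hB hC hK H0 h.1 h.2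
  have hDF : ∀ j, (D j).card ≤ r * v + 2 * v + 1 := by
    intro j
    rcases hD.1 j with h | h
    · rw [h]; simp
    · exact F1 (by omega) hB hA hC hK.swap12 H0 h.1 h.2
  have hFF : ∀ j, (F j).card ≤ r * v + 2 * v + 1 := by
    intro j
    rcases hF.1 j with h | h
    · rw [h]; simp
    · exact F1 (by omega) hC hA hB hK.swap23.swap12 H0 h.1 h.2
  by_cases b1 : ∀ j, 4 * v < (D j).card
  · exact allbig hr hA hB hC hK H0 H hD b1
  by_cases b2 : ∀ j, 4 * v < (E j).card
  · exact allbig hr hB hA hC hK.swap12 H0 H hE b2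
  by_cases b3 : ∀ j, 4 * v < (F j).card
  · exact allbig hr hA hC hB hK.swap23 H0 H hF b3
  push Not at b1 b2 b3
  obtain ⟨j0, hj0⟩ := b1
  obtain ⟨i0, hi0⟩ := b2
  obtain ⟨k0, hk0⟩ := b3
  have cE : ∀ i, i ≠ i0 → 4 * v < (E i).card := by
    intro i hi
    by_contra hcon
    push Not at hcon
    exact amos hr H hE.2.2 hEF i i0 hi hcon hi0
  have cD : ∀ i, i ≠ j0 → 4 * v < (D i).card := by
    intro i hi
    by_contra hcon
    push Not at hcon
    exact amos hr H hD.2.2 hDF i j0 hi hcon hj0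
  have cF : ∀ i, i ≠ k0 → 4 * v < (F i).card := by
    intro i hi
    by_contra hcon
    push Not at hcon
    exact amos hr H hF.2.2 hFF i k0 hi hcon hk0
  rcases Nat.lt_or_ge 4 r with h5 | h5
  · exact five h5 hA hB hC hK H0 H hE i0 hi0 hD j0 cD
  · obtain rfl : r = 4 := by omega
    exact four hA hB hC hK H0 H hE i0 hi0 cE hEF hD j0 cD hF k0 hk0 cF hFF

end Pool.Agent.R150.TT
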