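import Mathlib

/-!
# Simultaneous edge separation in trees: the basic definitions
-/

namespace Pool.Agent.R150.TT

/-- A finite tree of maximum degree at most `r` in which `n` distinct vertices carry the
labels `0, …, n - 1`; other, unlabelled vertices are allowed. -/
structure LTree (r n : ℕ) where
  /-- the vertices -/
  V : Type
  /-- there are finitely many -/
  fin : Finite V
  /-- the tree -/
  G : SimpleGraph V
  tree : G.IsTree
  deg : ∀ v : V, (G.neighborSet v).ncard ≤ r
  /-- the vertex carrying a given label -/
  lab : Fin n → V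
  inj : Function.Injective lab

/-- Deleting the edge `e = uv` of the tree, all labels of `X` lie in the component of one end `u`
and all labels of `Y` lie in the component of the other end `v` (`u` and `v` may be named in
either order). -/
def LTree.Separates {r n : ℕ} (T : LTree r n) (e : Sym2 T.V) (X Y : Finset (Fin n)) : Prop :=
  ∃ u v : T.V, e = s(u, v) ∧ (∀ x ∈ X, (T.G.deleteEdges {e}).Reachable u (T.lab x)) ∧
    ∀ y ∈ Y, (T.G.deleteEdges {e}).Reachable v (T.lab y)

/-- `f(𝒯, n)`: the maximum of `min(|X|,|Y|)` over all cut vectors (one edge from each tree) and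
all disjoint `X, Y` separated by that cut vector. -/
noncomputable def fFam {r k n : ℕ} (T : Fin k → LTree r n) : ℕ :=
  sSup {m | ∃ e : (i : Fin k) → Sym2 (T i).V, (∀ i, e i ∈ (T i).G.edgeSet) ∧
    ∃ X Y : Finset (Fin n), Disjoint X Y ∧ (∀ i, (T i).Separates (e i) X Y) ∧
      m = min X.card Y.card}

/-- `f(r, k, n)`: the minimum of `f(𝒯, n)` over all `k`-families on `[n]` of degree `≤ r`. -/
noncomputable def fNum (r k n : ℕ) : ℕ := sInf {m | ∃ T : Fin k → LTree r n, m = fFam T}

end Pool.Agent.R150.TT
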