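import Mathlib
import Pool.Agent.R150.TT.Defs
import Pool.Agent.R150.TT.Abs

namespace Pool.Agent.R150.TT

open Finset

section graph

variable {V : Type} {G : SimpleGraph V}

theorem reach_closed {H : SimpleGraph V} (S : V → Prop)
    (hS : ∀ y z, H.Adj y z → S y → S z) {u x : V} (hu : S u) (h : H.Reachable u x) : S x := by
  obtain ⟨p⟩ := h
  induction p with
  | nil => exact hu
  | cons hadj _ ih => exact ih (hS _ _ hadj hu)

theorem reach_or (hG : G.Connected) (w u x : V) :
    (G.deleteEdges {s(w, u)}).Reachable u x ∨ (G.deleteEdges {s(w, u)}).Reachable w x := by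
  refine reach_closed (H := G) (fun x => (G.deleteEdges {s(w, u)}).Reachable u x ∨
    (G.deleteEdges {s(w, u)}).Reachable w x) ?_ (u := u) (Or.inl (SimpleGraph.Reachable.refl _))
    (hG.preconnected u x)
  intro y z hyz hy
  by_cases he : s(y, z) = s(w, u)
  · rw [Sym2.eq_iff] at he
    rcases he with ⟨rfl, rfl⟩ | ⟨rfl, rfl⟩
    · exact Or.inl (SimpleGraph.Reachable.refl _)
    · exact Or.inr (SimpleGraph.Reachable.refl _)
  · have had : (G.deleteEdges {s(w, u)}).Adj y z := by
      rw [SimpleGraph.deleteEdges_adj]
      exact ⟨hyz, by simpa using he⟩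
    rcases hy with h | h
    · exact Or.inl (h.trans had.reachable)
    · exact Or.inr (h.trans had.reachable)

theorem bridge (hG : G.IsTree) {w u : V} (h : G.Adj w u) :
    ¬ (G.deleteEdges {s(w, u)}).Reachable w u :=
  SimpleGraph.isBridge_iff.mp (SimpleGraph.isAcyclic_iff_forall_adj_isBridge.mp hG.isAcyclic h)

theorem cover (hG : G.Connected) (w x : V) :
    x = w ∨ ∃ u, G.Adj w u ∧ (G.deleteEdges {s(w, u)}).Reachable u x := by
  refine reach_closed (H := G) (fun x => x = w ∨ ∃ u, G.Adj w u ∧
    (G.deleteEdges {s(w, u)}).Reachable u x) ?_ (u := w) (Or.inl rfl) (hG.preconnected w x)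
  intro y z hyz hy
  rcases hy with rfl | ⟨u, hu, hr⟩
  · exact Or.inr ⟨z, hyz, SimpleGraph.Reachable.refl _⟩
  · by_cases he : s(y, z) = s(w, u)
    · rw [Sym2.eq_iff] at he
      rcases he with ⟨rfl, rfl⟩ | ⟨rfl, rfl⟩
      · exact Or.inr ⟨_, hu, SimpleGraph.Reachable.refl _⟩
      · exact Or.inl rfl
    · have had : (G.deleteEdges {s(w, u)}).Adj y z := by
        rw [SimpleGraph.deleteEdges_adj]
        exact ⟨hyz, by simpa using he⟩
      exact Or.inr ⟨u, hu, hr.trans had.reachable⟩

theorem avoid (hG : G.IsTree) {w u u' x : V} (h : G.Adj w u')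
    (hr : (G.deleteEdges {s(w, u')}).Reachable u' x) :
    (G.deleteEdges {s(w, u)}).Reachable u' x := by
  have key : (G.deleteEdges {s(w, u')}).Reachable u' x ∧
      (G.deleteEdges {s(w, u)}).Reachable u' x := by
    refine reach_closed (H := G.deleteEdges {s(w, u')}) (fun x =>
      (G.deleteEdges {s(w, u')}).Reachable u' x ∧ (G.deleteEdges {s(w, u)}).Reachable u' x)
      ?_ (u := u') ⟨SimpleGraph.Reachable.refl _, SimpleGraph.Reachable.refl _⟩ hr
    intro y z hyz hy
    have hz : (G.deleteEdges {s(w, u')}).Reachable u' z := hy.1.trans hyz.reachable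
    refine ⟨hz, hy.2.trans ?_⟩
    apply SimpleGraph.Adj.reachable
    rw [SimpleGraph.deleteEdges_adj] at hyz ⊢
    refine ⟨hyz.1, ?_⟩
    have hyw : y ≠ w := by
      rintro rfl
      exact bridge hG h hy.1.symm
    have hzw : z ≠ w := by
      rintro rfl
      exact bridge hG h hz.symm
    simp only [Set.mem_singleton_iff, Sym2.eq_iff]
    rintro (⟨h1, _⟩ | ⟨_, h1⟩)
    · exact hyw h1
    · exact hzw h1
  exact key.2

theorem disj (hG : G.IsTree) {w u u' x : V} (h : G.Adj w u) (h' : G.Adj w u') (hne : u ≠ u')
    (hr : (G.deleteEdges {s(w, u)}).Reachable u x)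
    (hr' : (G.deleteEdges {s(w, u')}).Reachable u' x) : False := by
  have h1 := avoid (u := u) hG h' hr'
  have h2 : (G.deleteEdges {s(w, u)}).Adj w u' := by
    rw [SimpleGraph.deleteEdges_adj]
    refine ⟨h', ?_⟩
    simp only [Set.mem_singleton_iff, Sym2.eq_iff]
    rintro (⟨_, h1⟩ | ⟨h1, h2⟩)
    · exact hne h1.symm
    · exact hne (h1.symm.trans h2.symm)
  exact bridge hG h (h2.reachable.trans (h1.trans hr.symm))

end graph

open Classical in
/-- the labels on the side of `u` when the edge `wu` is deleted -/
noncomputable def side {r n : ℕ} (T : LTree r n) (w u : T.V) : Finset (Fin n) :=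
  univ.filter fun l => (T.G.deleteEdges {s(w, u)}).Reachable u (T.lab l)

theorem mem_side {r n : ℕ} (T : LTree r n) (w u : T.V) (l : Fin n) :
    l ∈ side T w u ↔ (T.G.deleteEdges {s(w, u)}).Reachable u (T.lab l) := by
  classical
  simp [side]

theorem side_compl {r n : ℕ} (T : LTree r n) {w u : T.V} (h : T.G.Adj w u) :
    (side T w u)ᶜ = side T u w := by
  ext l
  rw [mem_compl, mem_side, mem_side, Sym2.eq_swap (a := u)]
  have h1 := reach_or T.tree.connected w u (T.lab l)
  constructor
  · intro h2
    exact h1.resolve_left h2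
  · intro h2 h3
    exact bridge T.tree h (h2.trans h3.symm)

/-- all sides of a labelled tree -/
def sides {r n : ℕ} (T : LTree r n) : Set (Finset (Fin n)) :=
  {C | ∃ w u, T.G.Adj w u ∧ C = side T w u}

theorem treeLike {r n : ℕ} (T : LTree r n) : TreeLike (sides T) r := by
  classical
  haveI := T.fin
  letI := Fintype.ofFinite T.V
  constructor
  · rintro C ⟨w, u, h, rfl⟩
    exact ⟨u, w, h.symm, side_compl T h⟩
  · intro P hP
    -- a sink vertex
    obtain ⟨w, hw⟩ : ∃ w, ∀ u, T.G.Adj w u → P (side T w u) := by
      by_contra hcon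
      push Not at hcon
      choose g hg1 hg2 using hcon
      have hinj : Function.Injective (fun w => s(w, g w)) := by
        intro w w' hww
        by_contra hne
        simp only [Sym2.eq_iff] at hww
        rcases hww with ⟨h1, _⟩ | ⟨h1, h2⟩
        · exact hne h1
        · have k1 := hg2 w
          have k2 := hg2 w'
          rw [← h1] at k2
          rw [h2] at k1
          have := hP _ ⟨w, w', h2 ▸ hg1 w, rfl⟩
          rw [side_compl T (h2 ▸ hg1 w)] at this
          tauto
      have hc : (univ : Finset T.V).card ≤ T.G.edgeFinset.card := by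
        apply card_le_card_of_injOn (fun w => s(w, g w))
        · intro w _
          simp [hg1 w]
        · exact hinj.injOn
      have := T.tree.card_edgeFinset
      simp only [card_univ] at hc
      omega
    set N := T.G.neighborFinset w with hN
    have hNc : N.card ≤ r := by
      have := T.deg w
      rw [Set.ncard_eq_toFinset_card'] at this
      exact this
    let e := N.equivFin.symm
    let D : Fin r → Finset (Fin n) := fun j =>
      if h : j.val < N.card then side T w (e ⟨j.val, h⟩).1 else ∅
    have hadj : ∀ j : Fin N.card, T.G.Adj w (e j).1 := by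
      intro j
      exact (SimpleGraph.mem_neighborFinset _ _ _).mp (e j).2
    refine ⟨D, ?_, ?_, ?_⟩
    · intro j
      by_cases h : j.val < N.card
      · right
        simp only [D, h, dite_true]
        exact ⟨⟨w, _, hadj _, rfl⟩, hw _ (hadj _)⟩
      · left
        simp [D, h]
    · intro i j hij
      by_cases hi : i.val < N.card
      · by_cases hj : j.val < N.card
        · simp only [D, hi, hj, dite_true]
          rw [Finset.disjoint_left]
          intro l h1 h2
          rw [mem_side] at h1 h2
          refine disj T.tree (hadj ⟨i.val, hi⟩) (hadj ⟨j.val, hj⟩) ?_ h1 h2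
          intro heq
          have := e.injective (Subtype.ext heq)
          simp only [Fin.mk.injEq] at this
          exact hij (Fin.ext this)
        · simp [D, hj]
      · simp [D, hi]
    · intro X
      have hsub : X ⊆ (univ.biUnion fun j => X ∩ D j) ∪ univ.filter (fun l => T.lab l = w) := by
        intro l hl
        rw [mem_union]
        rcases cover T.tree.connected w (T.lab l) with h | ⟨u, hu, hr⟩
        · right
          simpa using h
        · left
          rw [mem_biUnion]
          have huN : u ∈ N := by
            rw [hN, SimpleGraph.mem_neighborFinset]; exact hu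
          let i := N.equivFin ⟨u, huN⟩
          refine ⟨⟨i.val, lt_of_lt_of_le i.2 hNc⟩, mem_univ _, ?_⟩
          rw [mem_inter]
          refine ⟨hl, ?_⟩
          simp only [D, i.2, dite_true]
          rw [mem_side]
          have : (e ⟨i.val, i.2⟩).1 = u := by
            simp [e, i]
          rw [this]
          exact hr
      calc X.card ≤ _ := card_le_card hsub
        _ ≤ (univ.biUnion fun j => X ∩ D j).card + (univ.filter (fun l => T.lab l = w)).card :=
          card_union_le _ _
        _ ≤ ∑ j, (X ∩ D j).card + 1 := by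
          apply Nat.add_le_add card_biUnion_le
          rw [card_le_one]
          intro a ha b hb
          simp only [mem_filter, mem_univ, true_and] at ha hb
          exact T.inj (ha.trans hb.symm)

theorem sep_le {r k n : ℕ} (T : Fin k → LTree r n) (hk : 0 < k) (C : Fin k → Finset (Fin n))
    (hC : ∀ i, C i ∈ sides (T i)) (X Y : Finset (Fin n)) (hX : ∀ i, X ⊆ C i)
    (hY : ∀ i, Y ⊆ (C i)ᶜ) : min X.card Y.card ≤ fFam T := by
  apply le_csSup
  · refine ⟨n, ?_⟩
    rintro m ⟨_, _, X, Y, _, _, rfl⟩
    refine (min_le_left _ _).trans ?_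
    have := card_le_univ X
    simpa using this
  · choose w u hadj hCe using hC
    refine ⟨fun i => s(w i, u i), fun i => hadj i, X, Y, ?_, ?_, rfl⟩
    · exact (disjoint_compl_right (a := C ⟨0, hk⟩)).mono (hX _) (hY _)
    · intro i
      refine ⟨u i, w i, Sym2.eq_swap, ?_, ?_⟩
      · intro x hx
        have := hX i hx
        rwa [hCe i, mem_side] at this
      · intro y hy
        have := hY i hy
        rw [hCe i, side_compl _ (hadj i), mem_side, Sym2.eq_swap (a := u i)] at this
        exact this

theorem k3 {r n : ℕ} (T : Fin 3 → LTree r n) :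
    K3 (sides (T 0)) (sides (T 1)) (sides (T 2)) (fFam T) := by
  intro a ha b hb c hc
  have h := sep_le T (by norm_num) ![a, b, c] (by
      intro i
      fin_cases i
      · exact ha
      · exact hb
      · exact hc) (a ∩ b ∩ c) (aᶜ ∩ bᶜ ∩ cᶜ) (by
      intro i
      fin_cases i
      · exact (inter_subset_left).trans inter_subset_left
      · exact (inter_subset_left).trans inter_subset_right
      · exact inter_subset_right) (by
      intro i
      fin_cases i
      · exact (inter_subset_left).trans inter_subset_left
      · exact (inter_subset_left).trans inter_subset_right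
      · exact inter_subset_right)
  exact min_le_iff.mp h

theorem lower {r n : ℕ} (hr : 4 ≤ r) (T : Fin 3 → LTree r n) :
    (r - 1) * n ≤ r ^ 3 * (fFam T + 1) :=
  main_abs hr (treeLike _) (treeLike _) (treeLike _) (k3 T)

end Pool.Agent.R150.TT
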