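import Mathlib
import Pool.Agent.R150.TT.Defs
import Pool.Agent.R150.TT.Lower

namespace Pool.Agent.R150.TT

open Finset

/-- vertices of the two-level spider: centre, hubs, legs -/
abbrev W (r n : ℕ) := Option (Fin r × Option (Fin (r - 1) × Fin (n + 1)))

variable {r n : ℕ}

/-- parent -/
def par : W r n → W r n
  | none => none
  | some (_, none) => none
  | some (i, some (s, p)) =>
      if p.val = 0 then some (i, none) else some (i, some (s, ⟨p.val - 1, by omega⟩))

/-- depth -/
def dep : W r n → ℕ
  | none => 0
  | some (_, none) => 1
  | some (_, some (_, p)) => p.val + 2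

theorem dep_par (x : W r n) (hx : x ≠ none) : dep (par x) < dep x := by
  match x with
  | none => exact absurd rfl hx
  | some (i, none) => simp [par, dep]
  | some (i, some (s, p)) =>
    by_cases h : p.val = 0
    · simp [par, dep, h]
    · simp only [par, h, if_false, dep]
      omega

/-- the tree -/
def TG (r n : ℕ) : SimpleGraph (W r n) := SimpleGraph.fromRel fun x y => par x = y

theorem TG_adj (x y : W r n) : (TG r n).Adj x y ↔ x ≠ y ∧ (par x = y ∨ par y = x) := by
  simp [TG]

theorem adj_par (x : W r n) (hx : x ≠ none) : (TG r n).Adj x (par x) := by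
  rw [TG_adj]
  refine ⟨?_, Or.inl rfl⟩
  intro h
  have := dep_par x hx
  rw [← h] at this
  exact lt_irrefl _ this

theorem reach_none : ∀ (k : ℕ) (x : W r n), dep x = k → (TG r n).Reachable x none := by
  intro k
  induction k using Nat.strong_induction_on with
  | _ k ih =>
    intro x hx
    by_cases h : x = none
    · rw [h]
    · have h1 := dep_par x h
      exact (adj_par x h).reachable.trans (ih _ (by omega) _ rfl)

theorem TG_conn : (TG r n).Connected := by
  haveI : Nonempty (W r n) := ⟨none⟩
  constructor
  intro x y
  exact (reach_none _ x rfl).trans (reach_none _ y rfl).symm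

theorem TG_tree : (TG r n).IsTree := by
  classical
  rw [SimpleGraph.isTree_iff_connected_and_card]
  refine ⟨TG_conn, ?_⟩
  apply le_antisymm
  · have h1 : Nat.card (TG r n).edgeSet ≤ Nat.card {x : W r n // x ≠ none} := by
      apply Nat.card_le_card_of_surjective
        (fun x : {x : W r n // x ≠ none} => (⟨s(x.1, par x.1), adj_par x.1 x.2⟩ :
          (TG r n).edgeSet))
      rintro ⟨e, he⟩
      induction e using Sym2.ind with
      | _ x y =>
        rw [SimpleGraph.mem_edgeSet, TG_adj] at he
        obtain ⟨hne, h | h⟩ := he
        · have hx : x ≠ none := by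
            rintro rfl
            exact hne h
          exact ⟨⟨x, hx⟩, by simp [h]⟩
        · have hy : y ≠ none := by
            rintro rfl
            exact hne h.symm
          exact ⟨⟨y, hy⟩, by simp [h, Sym2.eq_swap]⟩
    have h2 : Nat.card {x : W r n // x ≠ none} + 1 = Nat.card (W r n) := by
      rw [Nat.card_eq_fintype_card, Nat.card_eq_fintype_card, Fintype.card_subtype_compl]
      simp
    omega
  · have := (TG_conn (r := r) (n := n)).card_vert_le_card_edgeSet_add_one
    omega

theorem TG_deg (hr : 4 ≤ r) (x : W r n) : ((TG r n).neighborSet x).ncard ≤ r := by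
  classical
  have key : ∀ F : Finset (W r n), (∀ y, (TG r n).Adj x y → y ∈ F) → F.card ≤ r →
      ((TG r n).neighborSet x).ncard ≤ r := by
    intro F hF hc
    refine le_trans ?_ hc
    rw [← Set.ncard_coe_finset]
    exact Set.ncard_le_ncard (fun y hy => hF y hy) (Finset.finite_toSet F)
  match x with
  | none =>
    apply key (univ.image fun i : Fin r => (some (i, none) : W r n))
    · intro y hy
      rw [TG_adj] at hy
      obtain ⟨hne, h | h⟩ := hy
      · exact absurd h hne
      · match y with
        | none => exact absurd rfl hne
        | some (i, none) => simp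
        | some (i, some (s, p)) =>
          exfalso
          by_cases hp : p.val = 0 <;> simp [par, hp] at h
    · exact card_image_le.trans (by simp)
  | some (i, none) =>
    apply key (insert none (univ.image fun s : Fin (r - 1) =>
      (some (i, some (s, (⟨0, by omega⟩ : Fin (n + 1)))) : W r n)))
    · intro y hy
      rw [TG_adj] at hy
      obtain ⟨hne, h | h⟩ := hy
      · rw [← h]; simp [par]
      · match y with
        | none => simp
        | some (i', none) => simp [par] at h
        | some (i', some (s, p)) =>
          by_cases hp : p.val = 0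
          · simp only [par, hp, if_true, Option.some.injEq, Prod.mk.injEq, and_true] at h
            subst h
            have hp' : p = ⟨0, by omega⟩ := Fin.ext hp
            rw [hp']
            simp
          · simp [par, hp] at h
    · refine (card_insert_le _ _).trans ?_
      have : (univ.image fun s : Fin (r - 1) =>
        (some (i, some (s, (⟨0, by omega⟩ : Fin (n + 1)))) : W r n)).card ≤ r - 1 :=
        card_image_le.trans (by simp)
      omega
  | some (i, some (s, p)) =>
    apply key {par (some (i, some (s, p))),
      (some (i, some (s, if h : p.val + 1 < n + 1 then ⟨p.val + 1, h⟩ else 0)) : W r n)}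
    · intro y hy
      rw [TG_adj] at hy
      obtain ⟨hne, h | h⟩ := hy
      · rw [← h]; simp
      · match y with
        | none => simp [par] at h
        | some (i', none) => simp [par] at h
        | some (i', some (s', p')) =>
          by_cases hp : p'.val = 0
          · simp [par, hp] at h
          · simp only [par, hp, if_false, Option.some.injEq, Prod.mk.injEq] at h
            obtain ⟨rfl, rfl, h3⟩ := h
            have h4 : p.val = p'.val - 1 := by rw [← h3]
            have h5 : p.val + 1 < n + 1 := by omega
            rw [mem_insert, mem_singleton]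
            right
            simp only [h5, dite_true]
            congr 3
            apply Prod.ext
            · rfl
            · apply Fin.ext
              simp
              omega
    · exact (card_insert_le _ _).trans (by simp; omega)

/-- digits -/
abbrev Cell (r : ℕ) := Fin r × Fin (r - 1)

/-- labelled tree from digits -/
def mkT (hr : 4 ≤ r) (d : Fin n → Cell r) : LTree r n where
  V := W r n
  fin := inferInstance
  G := TG r n
  tree := TG_tree
  deg := TG_deg hr
  lab := fun l => some ((d l).1, some ((d l).2, l.castSucc))
  inj := by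
    intro a b h
    simp only [Option.some.injEq, Prod.mk.injEq] at h
    exact Fin.castSucc_injective _ h.2.2

/-- the four possible pairs of sizes of cells -/
def Opt (r a b : ℕ) : Prop :=
  (a = r - 1 ∧ b = (r - 1) ^ 2) ∨ (a = (r - 1) ^ 2 ∧ b = r - 1) ∨
  (a = 1 ∧ b = r * (r - 1)) ∨ (a = r * (r - 1) ∧ b = 1)

/-- branch `i` -/
def InBr (i : Fin r) : W r n → Prop
  | none => False
  | some (j, _) => j = i

/-- leg `(i, s)` from position `q` on -/
def InLeg (i : Fin r) (s : Fin (r - 1)) (q : ℕ) : W r n → Prop
  | none => False
  | some (_, none) => False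
  | some (j, some (t, p)) => j = i ∧ t = s ∧ q ≤ p.val

theorem sq_aux {r M : ℕ} (hr : 4 ≤ r) (h : r - 1 + M = r * (r - 1)) : M = (r - 1) ^ 2 := by
  obtain ⟨s, rfl⟩ : ∃ s, r = s + 4 := ⟨r - 4, by omega⟩
  have e : s + 4 - 1 = s + 3 := by omega
  rw [e] at h ⊢
  nlinarith

theorem cut_aux (hr : 4 ≤ r) (d : Fin n → Cell r) (u : W r n) (hu : u ≠ none) :
    ∃ SX SY : Finset (Cell r), Opt r SX.card SY.card ∧
      (∀ l, ((TG r n).deleteEdges {s(u, par u)}).Reachable u ((mkT hr d).lab l) → d l ∈ SX) ∧
      (∀ l, ((TG r n).deleteEdges {s(u, par u)}).Reachable (par u) ((mkT hr d).lab l) →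
        d l ∈ SY) := by
  classical
  match u with
  | none => exact absurd rfl hu
  | some (i, none) =>
    refine ⟨univ.filter (fun c => c.1 = i), univ.filter (fun c => ¬ c.1 = i), ?_, ?_, ?_⟩
    · left
      have h1 : (univ.filter (fun c : Cell r => c.1 = i)).card = r - 1 := by
        have : univ.filter (fun c : Cell r => c.1 = i) = {i} ×ˢ univ := by
          ext ⟨a, b⟩
          simp [eq_comm]
        rw [this, card_product]; simp
      refine ⟨h1, ?_⟩
      have h2 := card_filter_add_card_filter_not (s := (univ : Finset (Cell r)))
        (fun c => c.1 = i)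
      rw [h1] at h2
      simp only [card_univ, Fintype.card_prod, Fintype.card_fin] at h2
      exact sq_aux hr h2
    · intro l hl
      have := reach_closed (InBr i) (?_) (show InBr (n := n) i (some (i, none)) from rfl) hl
      · simpa [mkT, InBr] using this
      · intro y z hyz hy
        rw [SimpleGraph.deleteEdges_adj, TG_adj] at hyz
        obtain ⟨⟨hne, h⟩, he⟩ := hyz
        match y, z with
        | none, z => exact absurd hy (by simp [InBr])
        | some (j, none), none =>
          have : j = i := hy
          subst this
          exfalso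
          apply he
          simp [par]
        | some (j, some (t, p)), none =>
          exfalso
          rcases h with h | h
          · by_cases hp : p.val = 0 <;> simp [par, hp] at h
          · simp [par] at h
        | some (j, a), some (k, b) =>
          have hj : j = i := hy
          show k = i
          rcases h with h | h
          · match a with
            | none => simp [par] at h
            | some (t, p) =>
              by_cases hp : p.val = 0
              · simp only [par, hp, if_true, Option.some.injEq, Prod.mk.injEq] at h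
                rw [← h.1, hj]
              · simp only [par, hp, if_false, Option.some.injEq, Prod.mk.injEq] at h
                rw [← h.1, hj]
          · match b with
            | none => simp [par] at h
            | some (t, p) =>
              by_cases hp : p.val = 0
              · simp only [par, hp, if_true, Option.some.injEq, Prod.mk.injEq] at h
                rw [h.1, hj]
              · simp only [par, hp, if_false, Option.some.injEq, Prod.mk.injEq] at h
                rw [h.1, hj]
    · intro l hl
      have := reach_closed (fun x => ¬ InBr i x) (?_)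
        (show ¬ InBr (n := n) i (par (some (i, none))) by simp [par, InBr]) hl
      · simpa [mkT, InBr] using this
      · intro y z hyz hy
        rw [SimpleGraph.deleteEdges_adj, TG_adj] at hyz
        obtain ⟨⟨hne, h⟩, he⟩ := hyz
        match y, z with
        | y, none => simp [InBr]
        | none, some (j, none) =>
          intro hj
          have : j = i := hj
          subst this
          apply he
          simp [par, Sym2.eq_swap]
        | none, some (j, some (t, p)) =>
          exfalso
          rcases h with h | h
          · simp [par] at h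
          · by_cases hp : p.val = 0 <;> simp [par, hp] at h
        | some (j, a), some (k, b) =>
          intro hk
          have hk : k = i := hk
          apply hy
          show j = i
          rcases h with h | h
          · match a with
            | none => simp [par] at h
            | some (t, p) =>
              by_cases hp : p.val = 0
              · simp only [par, hp, if_true, Option.some.injEq, Prod.mk.injEq] at h
                rw [h.1, hk]
              · simp only [par, hp, if_false, Option.some.injEq, Prod.mk.injEq] at h
                rw [h.1, hk]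
          · match b with
            | none => simp [par] at h
            | some (t, p) =>
              by_cases hp : p.val = 0
              · simp only [par, hp, if_true, Option.some.injEq, Prod.mk.injEq] at h
                rw [← h.1, hk]
              · simp only [par, hp, if_false, Option.some.injEq, Prod.mk.injEq] at h
                rw [← h.1, hk]
  | some (i, some (s, q)) =>
    refine ⟨{(i, s)}, univ, ?_, ?_, fun l _ => mem_univ _⟩
    · right; right; left
      simp
    · intro l hl
      have := reach_closed (InLeg i s q.val) (?_)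
        (show InLeg (n := n) i s q.val (some (i, some (s, q))) from ⟨rfl, rfl, le_rfl⟩) hl
      · simp only [mkT, InLeg] at this
        rw [mem_singleton]
        exact Prod.ext this.1 this.2.1
      · intro y z hyz hy
        rw [SimpleGraph.deleteEdges_adj, TG_adj] at hyz
        obtain ⟨⟨hne, h⟩, he⟩ := hyz
        match y with
        | none => exact absurd hy (by simp [InLeg])
        | some (j, none) => exact absurd hy (by simp [InLeg])
        | some (j, some (t, p)) =>
          obtain ⟨rfl, rfl, hq⟩ : j = i ∧ t = s ∧ q.val ≤ p.val := hy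
          rcases h with h | h
          · by_cases hpq : p = q
            · subst hpq
              exfalso
              apply he
              rw [h]; simp
            · have hpq' : q.val < p.val := lt_of_le_of_ne hq (fun h => hpq (Fin.ext h.symm))
              have hp : ¬ p.val = 0 := by omega
              simp only [par, hp, if_false] at h
              rw [← h]
              exact ⟨rfl, rfl, by simp; omega⟩
          · match z with
            | none => simp [par] at h
            | some (k, none) => simp [par] at h
            | some (k, some (t', p')) =>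
              by_cases hp : p'.val = 0
              · simp [par, hp] at h
              · simp only [par, hp, if_false, Option.some.injEq, Prod.mk.injEq] at h
                obtain ⟨rfl, rfl, h3⟩ := h
                have h4 : p.val = p'.val - 1 := by rw [← h3]
                exact ⟨rfl, rfl, by omega⟩

theorem Opt.symm {a b : ℕ} (h : Opt r a b) : Opt r b a := by
  unfold Opt at *
  tauto

theorem cut (hr : 4 ≤ r) (d : Fin n → Cell r) (e : Sym2 (W r n)) (he : e ∈ (TG r n).edgeSet)
    (X Y : Finset (Fin n)) (h : (mkT hr d).Separates e X Y) :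
    ∃ SX SY : Finset (Cell r), Opt r SX.card SY.card ∧ (∀ l ∈ X, d l ∈ SX) ∧
      (∀ l ∈ Y, d l ∈ SY) := by
  obtain ⟨u, v, rfl, h1, h2⟩ := h
  change W r n at u v
  have he' : (TG r n).Adj u v := he
  rw [TG_adj] at he'
  obtain ⟨hne, h | h⟩ := he'
  · have hu : u ≠ none := by
      rintro rfl
      exact hne h
    obtain ⟨SX, SY, h3, h4, h5⟩ := cut_aux hr d u hu
    rw [h] at h4 h5
    exact ⟨SX, SY, h3, fun l hl => h4 l (h1 l hl), fun l hl => h5 l (h2 l hl)⟩
  · have hv : v ≠ none := by
      rintro rfl
      exact hne h.symm
    obtain ⟨SX, SY, h3, h4, h5⟩ := cut_aux hr d v hv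
    rw [h, Sym2.eq_swap] at h4 h5
    exact ⟨SY, SX, h3.symm, fun l hl => h5 l (h1 l hl), fun l hl => h4 l (h2 l hl)⟩


theorem opt3' {q a₀ a₁ a₂ b₀ b₁ b₂ : ℕ} (hq : 3 ≤ q)
    (h0 : (a₀ = q ∧ b₀ = q ^ 2) ∨ (a₀ = q ^ 2 ∧ b₀ = q) ∨
      (a₀ = 1 ∧ b₀ = (q + 1) * q) ∨ (a₀ = (q + 1) * q ∧ b₀ = 1))
    (h1 : (a₁ = q ∧ b₁ = q ^ 2) ∨ (a₁ = q ^ 2 ∧ b₁ = q) ∨
      (a₁ = 1 ∧ b₁ = (q + 1) * q) ∨ (a₁ = (q + 1) * q ∧ b₁ = 1))
    (h2 : (a₂ = q ∧ b₂ = q ^ 2) ∨ (a₂ = q ^ 2 ∧ b₂ = q) ∨
      (a₂ = 1 ∧ b₂ = (q + 1) * q) ∨ (a₂ = (q + 1) * q ∧ b₂ = 1)) :
    a₀ * a₁ * a₂ ≤ q ^ 4 ∨ b₀ * b₁ * b₂ ≤ q ^ 4 := by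
  have f1 : q ≤ q ^ 2 := by nlinarith
  have f2 : 3 * q ^ 2 ≤ q ^ 3 := by
    have : q ^ 3 = q * q ^ 2 := by ring
    rw [this]
    exact Nat.mul_le_mul_right _ hq
  have f3 : 3 * q ^ 3 ≤ q ^ 4 := by
    have : q ^ 4 = q * q ^ 3 := by ring
    rw [this]
    exact Nat.mul_le_mul_right _ hq
  rcases h0 with h0 | h0 | h0 | h0 <;>
  rcases h1 with h1 | h1 | h1 | h1 <;>
  rcases h2 with h2 | h2 | h2 | h2 <;>
  obtain ⟨e0, e0'⟩ := h0 <;>
  obtain ⟨e1, e1'⟩ := h1 <;>
  obtain ⟨e2, e2'⟩ := h2 <;>
  rw [e0, e0', e1, e1', e2, e2'] <;>
  clear e0 e0' e1 e1' e2 e2' <;>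
  first
    | (left; ring_nf; omega)
    | (right; ring_nf; omega)

theorem opt3 {a₀ a₁ a₂ b₀ b₁ b₂ : ℕ} (hr : 4 ≤ r) (h0 : Opt r a₀ b₀) (h1 : Opt r a₁ b₁)
    (h2 : Opt r a₂ b₂) : a₀ * a₁ * a₂ ≤ (r - 1) ^ 4 ∨ b₀ * b₁ * b₂ ≤ (r - 1) ^ 4 := by
  have hq : 3 ≤ r - 1 := by omega
  have e : r - 1 + 1 = r := by omega
  apply opt3' hq
  · rw [e]; exact h0
  · rw [e]; exact h1
  · rw [e]; exact h2

/-- number of digit vectors -/
def LL (r : ℕ) : ℕ := (r * (r - 1)) ^ 3

theorem card_codes : Fintype.card (Fin 3 → Cell r) = LL r := by
  simp [LL]

theorem LL_pos (hr : 4 ≤ r) : 0 < LL r := by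
  unfold LL
  have : 0 < r - 1 := by omega
  positivity

/-- the digit vector of a label -/
noncomputable def dig (hr : 4 ≤ r) (l : ℕ) : Fin 3 → Cell r :=
  (Fintype.equivFinOfCardEq (card_codes (r := r))).symm ⟨l % LL r, Nat.mod_lt _ (LL_pos hr)⟩

theorem count (hr : 4 ≤ r) (S : Fin 3 → Finset (Cell r)) (X : Finset (Fin n))
    (hX : ∀ l ∈ X, ∀ t, dig hr l.val t ∈ S t) :
    X.card ≤ (S 0).card * (S 1).card * (S 2).card * (n / LL r + 1) := by
  classical
  have h1 : X.card ≤ (Fintype.piFinset S ×ˢ range (n / LL r + 1)).card := by
    apply card_le_card_of_injOn (fun l => (dig hr l.val, l.val / LL r))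
    · intro l hl
      simp only [coe_product, Set.mem_prod, mem_coe, Fintype.mem_piFinset, mem_range]
      exact ⟨fun t => hX l hl t, Nat.lt_succ_of_le (Nat.div_le_div_right l.2.le)⟩
    · intro a _ b _ hab
      simp only [Prod.mk.injEq] at hab
      obtain ⟨h1, h2⟩ := hab
      unfold dig at h1
      have h3 := (Fintype.equivFinOfCardEq (card_codes (r := r))).symm.injective h1
      simp only [Fin.mk.injEq] at h3
      apply Fin.ext
      rw [← Nat.div_add_mod a.val (LL r), ← Nat.div_add_mod b.val (LL r), h2, h3]
  rw [card_product, Fintype.card_piFinset, card_range] at h1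
  rw [Fin.prod_univ_three] at h1
  exact h1

/-- the family of three labelled trees -/
noncomputable def fam (hr : 4 ≤ r) (n : ℕ) : Fin 3 → LTree r n :=
  fun t => mkT hr (fun l => dig hr l.val t)

theorem upper (hr : 4 ≤ r) (n : ℕ) : fFam (fam hr n) ≤ (r - 1) ^ 4 * (n / LL r + 1) := by
  apply csSup_le'
  rintro m ⟨e, he, X, Y, _, hs, rfl⟩
  have h : ∀ t : Fin 3, ∃ SX SY : Finset (Cell r), Opt r SX.card SY.card ∧
      (∀ l ∈ X, dig hr l.val t ∈ SX) ∧ (∀ l ∈ Y, dig hr l.val t ∈ SY) := by
    intro t
    exact cut hr (fun l : Fin n => dig hr l.val t) (e t) (he t) X Y (hs t)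
  choose SX SY h1 h2 h3 using h
  have c1 := count hr SX X (fun l hl t => h2 t l hl)
  have c2 := count hr SY Y (fun l hl t => h3 t l hl)
  rw [min_le_iff]
  rcases opt3 hr (h1 0) (h1 1) (h1 2) with h | h
  · exact Or.inl (c1.trans (Nat.mul_le_mul_right _ h))
  · exact Or.inr (c2.trans (Nat.mul_le_mul_right _ h))

end Pool.Agent.R150.TT
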